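import Pool.Agent.Helper69K1.GrS.Fin
import Pool.Agent.Helper69K1.GrS.F1a
import Pool.Agent.Helper69K1.GrS.F1
import Pool.Agent.Helper69K1.GrS.F2a
import Pool.Agent.Helper69K1.GrS.F2b
import Pool.Agent.Helper69K1.GrS.F2c
import Pool.Agent.Helper69K1.GrS.F2d
import Pool.Agent.Helper69K1.GrU.BU
import Pool.Agent.Helper69K1.GrU.NU
import Pool.Agent.Helper69K1.GrU.G
import Pool.Agent.Helper69K1.Gr.JM1
import Pool.Agent.Helper69K1.Gr.JM2
import Pool.Agent.Helper69K1.Gr.A
import Pool.Agent.Helper69K1.Gr.R
import Pool.Agent.Helper69K1.Gr.B1
import Pool.Agent.Helper69K1.Gr.B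
import Pool.Agent.Helper69K1.Gr.M
import Pool.Agent.Helper69K1.Gr.E
import Pool.Agent.Helper69K1.Gr.D
import Pool.Agent.Helper97.GR.COM

/-!
# Symbolic determinant identity testing for block triangular spaces built from graded Lie algebras

A Turing machine running in polynomial time decides whether the determinant of a symbolic matrix
is nonzero whenever the values of the symbolic matrix are, in some complex coordinates, block upper
triangular with diagonal blocks which are closed under iterated commutators
`[X_k, [X_(k-1), ..., [X_1, X_0]]]`, each block for itself and with its own positive `k`. For `k = 1`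
such a block ranges over a Lie algebra of matrices, for `k = 2` over a Lie triple system, and for
every `k` the degree one part of a Lie algebra of matrices graded by the integers modulo `k` is
allowed. Blocks of size one are always allowed. The different diagonal blocks may depend on the
variables in any way. The machine reads only the symbolic matrix; the coordinates, the blocks and
the numbers `k` are not given to it, and it never declares a singular symbolic matrix nonsingular.
-/

namespace Pool.Agent.Results.MP_64d474_lc.GradedLie

open Pool.Agent.NPC Pool.Agent.Helper69K1 Pool.Agent.Helper69K1.Gr Pool.Agent.Helper69K1.GrU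

/-- The iterated commutator `[M_k, [M_(k-1), ..., [M_1, M_0]]]` of `M_0, ..., M_k`. -/
def iterComm {R : Type} [Ring R] (M : ℕ → R) : ℕ → R
  | 0 => M 0
  | k + 1 => M (k + 1) * iterComm M k - iterComm M k * M (k + 1)

/-- For some invertible complex matrix `P` and some function `g` from the indices to the natural
numbers the matrices `P A(c) P⁻¹` are block upper triangular, the blocks being the level sets of
`g`, and for every level `l` there is a positive `k` such that the diagonal blocks of level `l` are
closed under the iterated commutators of `k + 1` matrices. -/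
def HasClosedBlocks (A : SMat) : Prop :=
  ∃ (P : Matrix (Fin A.length) (Fin A.length) ℂ) (g : Fin A.length → ℕ), P.det ≠ 0 ∧
    (∀ c : ℕ → ℂ, (P * substC A c * P⁻¹).BlockTriangular g) ∧
    ∀ l, ∃ k, 1 ≤ k ∧ ∀ c : ℕ → ℕ → ℂ, ∃ d : ℕ → ℂ,
      (P * substC A d * P⁻¹).toSquareBlock g l =
        iterComm (fun i => (P * substC A (c i) * P⁻¹).toSquareBlock g l) k

theorem iterComm_eq {R : Type} [Ring R] (M : ℕ → R) : ∀ k, iterComm M k = GrB.iterComm M k
  | 0 => rfl
  | k + 1 => by rw [iterComm, GrB.iterComm, iterComm_eq M k]

theorem closedBlocks {A : SMat} (h : HasClosedBlocks A) : GrS.HasClosedBlocks A := by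
  obtain ⟨P, g, hP, hg, hk⟩ := h
  refine ⟨P, g, hP, hg, fun l => ?_⟩
  obtain ⟨k, hk1, hk2⟩ := hk l
  refine ⟨k, hk1, fun c => ?_⟩
  obtain ⟨d, hd⟩ := hk2 c
  exact ⟨d, by rw [hd, iterComm_eq]⟩

theorem s_GU : S_GU :=
  t_GU t_COM (t_NU t_COM (t_A t_JM1 t_JM2) t_R t_M (t_BU t_COM (t_B t_COM t_B1))) (t_D t_COM) t_E

/-- There is a function from symbolic matrices to truth values, computed by a Turing machine in
polynomial time, which is true only on square symbolic matrices with nonzero determinant, and
which is true on all of those whose values are block upper triangular, in some complex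
coordinates, with diagonal blocks closed under iterated commutators, each block with its own
length of the commutators. -/
theorem result : ∃ D : SMat → Bool,
    Nonempty (Turing.TM2ComputableInPolyTime (bits : SMat → List Bool)
      (bits : Bool → List Bool) D) ∧
    (∀ A : SMat, D A = true → IsSquare A ∧ (symMat A).det ≠ 0) ∧
    ∀ A : SMat, IsSquare A → HasClosedBlocks A → (symMat A).det ≠ 0 → D A = true :=
  ⟨GrS.symS, H532.Poly.toTM GrS.poly_symS, fun _ h => GrS.symS_sound (GrS.t_F1 GrS.t_F1a) h,
    fun _ hs hA hd => GrS.symS_complete s_GU (GrS.t_F2c GrS.t_F2a GrS.t_F2b) GrS.t_F2d hs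
      (closedBlocks hA) hd⟩

end Pool.Agent.Results.MP_64d474_lc.GradedLie
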