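import Pool.Agent.Helper69K1.AlgLie

/-!
# Symbolic determinant identity testing for translates of Lie algebras of matrices

Let `B` be the space of the values of a symbolic matrix at rational points. It is a translate of a
Lie algebra of matrices if `B = L W` for a Lie algebra `L` of matrices and an invertible matrix
`W`; equivalently, some invertible matrix `V` (the inverse of `W`) is such that `X V Y - Y V X` lies
in `B` for all `X` and `Y` in `B`. A Turing machine running in polynomial time decides whether a
given symbolic matrix has nonzero determinant and has a space of values of this kind. Neither `L`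
nor `W` is given to the machine.
-/

namespace Pool.Agent.Results.MP_64d474_lc.LieTranslate

open Pool.Agent.NPC Pool.Agent.Helper69K1

/-- For some invertible matrix `V`, the space of the values of the symbolic matrix at rational
points is closed under the map from `X`, `Y` to `X V Y - Y V X`. -/
def IsLieTranslate (A : SMat) : Prop :=
  ∃ V : Matrix (Fin A.length) (Fin A.length) ℚ, V.det ≠ 0 ∧
    ∀ a b : ℕ → ℚ, ∃ c : ℕ → ℚ,
      subst A c = subst A a * V * subst A b - subst A b * V * subst A a

theorem translate_iff (A : SMat) : IsLieTranslate A ↔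
    ∃ Y ∈ cj (-1) (spB A.length (coeffs A)), Y.det ≠ 0 := by
  constructor
  · rintro ⟨V, hV, h⟩
    refine ⟨V, mem_cjm.2 fun X hX X' hX' => ?_, hV⟩
    obtain ⟨a, rfl⟩ := mem_range_subst.2 hX
    obtain ⟨b, rfl⟩ := mem_range_subst.2 hX'
    obtain ⟨c, hc⟩ := h a b
    rw [← hc]
    exact mem_range_subst.1 ⟨c, rfl⟩
  · rintro ⟨V, hV, h⟩
    refine ⟨V, h, fun a b => ?_⟩
    obtain ⟨c, hc⟩ := mem_range_subst.2 (mem_cjm.1 hV _ (mem_range_subst.1 ⟨a, rfl⟩) _
      (mem_range_subst.1 ⟨b, rfl⟩))
    exact ⟨c, hc.symm⟩

/-- A Turing machine decides in polynomial time whether a symbolic matrix is square, has nonzero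
determinant, and is a translate of a Lie algebra of matrices. -/
theorem result : ∃ D : SMat → Bool,
    Nonempty (Turing.TM2ComputableInPolyTime (bits : SMat → List Bool)
      (bits : Bool → List Bool) D) ∧
    ∀ A : SMat, D A = true ↔ IsSquare A ∧ (symMat A).det ≠ 0 ∧ IsLieTranslate A :=
  ⟨symLie, H532.Poly.toTM poly_symLie, fun A => by rw [symLie_iff, translate_iff]⟩

end Pool.Agent.Results.MP_64d474_lc.LieTranslate
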