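import Pool.Agent.Helper69K1.AlgMod

/-!
# Symbolic determinant identity testing for spaces of bounded modality

A symmetry of a symbolic matrix `A` is a pair of invertible complex matrices `P`, `Q` such that
`P X Q` is a value of `A` for all values `X` of `A` at complex points. The symbolic matrix has
modality at most `μ` if its values depend, up to symmetries, on at most `μ` parameters. For every
`μ` a Turing machine running in polynomial time decides whether the determinant of a symbolic
matrix of modality at most `μ` is nonzero. The machine reads only the symbolic matrix: it is given
neither the modality nor the symmetries, and it never declares a singular symbolic matrix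
nonsingular.
-/

namespace Pool.Agent.Results.MP_64d474_lc.Modality

open Pool.Agent.NPC Pool.Agent.Helper69K1

/-- For every `μ` there is a function from symbolic matrices to truth values, computed by a Turing
machine in polynomial time, which is true only on square symbolic matrices with nonzero
determinant, and which is true on all of those whose values depend, up to symmetries, on at most
`μ` parameters. -/
theorem result (μ : ℕ) : ∃ D : SMat → Bool,
    Nonempty (Turing.TM2ComputableInPolyTime (bits : SMat → List Bool)
      (bits : Bool → List Bool) D) ∧
    (∀ A : SMat, D A = true → IsSquare A ∧ (symMat A).det ≠ 0) ∧
    ∀ A : SMat, IsSquare A → HasModality μ A → (symMat A).det ≠ 0 → D A = true :=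
  ⟨symM (μ + 1), H532.Poly.toTM (poly_symM (μ + 1)), fun _ h => symM_sound h,
    fun _ hs hm hd => symM_complete (Nat.lt_succ_self μ) hs hm hd⟩

end Pool.Agent.Results.MP_64d474_lc.Modality
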