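import Pool.Agent.Helper69K1.AlgLay

/-!
# Symbolic determinant identity testing for perturbed triangular spaces

The symbolic matrices treated here are, in suitable unknown coordinates, block upper triangular,
with blocks of unbounded number and size, and every diagonal block is the sum `T + L` of a
triangular matrix `T` with `b` layers (diagonal within each layer, arbitrary entries from a layer
to a later one) and of a matrix `L` of rank at most `c`. For fixed `b` and `c` a Turing machine
running in polynomial time decides whether the determinant of such a symbolic matrix is nonzero.
The machine reads only the symbolic matrix: it is given neither the coordinates nor the blocks nor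
the decomposition, and it never declares a singular symbolic matrix nonsingular.
-/

namespace Pool.Agent.Results.MP_64d474_lc.PerturbedTriangular

open Pool.Agent.NPC Pool.Agent.Helper69K1

/-- For every `e` there is a function from symbolic matrices to truth values, computed by a Turing
machine in polynomial time, which is true only on square symbolic matrices with nonzero
determinant, and which is true on all of those which are, up to equivalence, block upper
triangular with diagonal blocks `T + L`, where `T` is triangular with `b` layers, `L` has rank at
most `c`, and `b * (b + 1) * c ≤ e`. -/
theorem result (e : ℕ) : ∃ D : SMat → Bool,
    Nonempty (Turing.TM2ComputableInPolyTime (bits : SMat → List Bool)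
      (bits : Bool → List Bool) D) ∧
    (∀ A : SMat, D A = true → IsSquare A ∧ (symMat A).det ≠ 0) ∧
    ∀ b c : ℕ, b * (b + 1) * c ≤ e → ∀ A : SMat, IsSquare A → IsLayered b c A →
      (symMat A).det ≠ 0 → D A = true :=
  ⟨symY e, H532.Poly.toTM (poly_symY e), fun _ h => symY_sound h,
    fun _ _ he _ hs hm hd => symY_complete he hs hm hd⟩

end Pool.Agent.Results.MP_64d474_lc.PerturbedTriangular
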